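import Mathlib.RingTheory.AlgebraicIndependent.Basic
import Mathlib.LinearAlgebra.LinearIndependent.Basic
import Mathlib.Data.Finsupp.Order
import Mathlib.Topology.Algebra.Order.LiminfLimsup
import Mathlib.Analysis.Real.OfDigits

/-!
# The strength of the LMO invariant and orientation reversal
-/

set_option autoImplicit false

namespace Pool.Agent.X308.Y

open Filter Topology

/-- The structure of the LMO invariant on integral homology spheres. `P` is the set of prime
integral homology spheres other than the sphere, so `P →₀ ℕ` is the set of integral homology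
spheres, with the connected sum as addition. -/
structure LMO (P A : Type) [CommRing A] [Algebra ℚ A] where
  /-- reversal of the orientation of a prime homology sphere -/
  rev : P → P
  rev_rev : ∀ p, rev (rev p) = p
  /-- the invariant -/
  Z : (P →₀ ℕ) → A
  /-- the value at the sphere -/
  Z_zero : Z 0 = 1
  /-- multiplicativity under the connected sum -/
  Z_add : ∀ M N, Z (M + N) = Z M * Z N
  /-- the ring homomorphism which multiplies the part of degree `n` by `(-1) ^ n` -/
  bar : A →+* A
  /-- the invariant of the homology sphere with the reversed orientation -/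
  Z_rev : ∀ M : P →₀ ℕ, Z (M.mapDomain rev) = bar (Z M)
  /-- the map which multiplies a product of `r` connected diagrams by `k ^ r` -/
  psi : ℕ → A →ₗ[ℚ] A
  /-- the invariant is the exponential of a series of connected diagrams -/
  psi_Z : ∀ k M, psi k (Z M) = Z M ^ k

namespace LMO

variable {P A : Type} [CommRing A] [Algebra ℚ A] (L : LMO P A)

/-- The homology sphere with the reversed orientation. -/
noncomputable def opp (M : P →₀ ℕ) : P →₀ ℕ := M.mapDomain L.rev

lemma opp_apply (M : P →₀ ℕ) (p : P) : L.opp M p = M (L.rev p) := by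
  have h : Function.Injective L.rev := Function.LeftInverse.injective L.rev_rev
  have := Finsupp.mapDomain_apply h M (L.rev p)
  rwa [L.rev_rev] at this

lemma opp_opp (M : P →₀ ℕ) : L.opp (L.opp M) = M := by
  ext p
  rw [opp_apply, opp_apply, L.rev_rev]

lemma Z_opp (M : P →₀ ℕ) : L.Z (L.opp M) = L.bar (L.Z M) := L.Z_rev M

lemma Z_ne [Nontrivial A] (M : P →₀ ℕ) : L.Z M ≠ 0 := by
  intro h
  have := L.psi_Z 0 M
  rw [h, map_zero, pow_zero] at this
  exact zero_ne_one this

lemma Z_cancel [IsDomain A] {M N M' N' : P →₀ ℕ} (h : L.Z M = L.Z N) (e : M + N' = N + M') :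
    L.Z N' = L.Z M' := by
  have h1 := congrArg L.Z e
  rw [L.Z_add, L.Z_add, h] at h1
  exact mul_left_cancel₀ (L.Z_ne N) h1

/-- Linear independence from injectivity. -/
theorem linearIndependent [IsDomain A] (h : Function.Injective L.Z) :
    LinearIndependent ℚ L.Z := by
  classical
  rw [linearIndependent_iff']
  intro s g hg M hM
  have key := linearIndependent_monoidHom (Multiplicative ℕ) A
  let χ : A → (Multiplicative ℕ →* A) := fun x => powersHom A x
  have hχ : ∀ x (k : ℕ), χ x (Multiplicative.ofAdd k) = x ^ k := fun x k => rfl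
  have hinj : Function.Injective fun M : P →₀ ℕ => χ (L.Z M) := by
    intro M N hMN
    apply h
    have := DFunLike.congr_fun hMN (Multiplicative.ofAdd 1)
    simpa [hχ] using this
  have h1 : LinearIndependent A fun M : P →₀ ℕ => ((χ (L.Z M) : Multiplicative ℕ →* A) :
      Multiplicative ℕ → A) := key.comp _ hinj
  rw [linearIndependent_iff'] at h1
  have h2 := h1 s (fun M => algebraMap ℚ A (g M)) (by
    funext k
    have h3 := congrArg (L.psi k.toAdd) hg
    rw [map_sum, map_zero] at h3
    rw [Finset.sum_apply, Pi.zero_apply, ← h3]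
    refine Finset.sum_congr rfl fun M _ => ?_
    rw [map_smul, L.psi_Z, Pi.smul_apply, smul_eq_mul, Algebra.smul_def]
    rfl) M hM
  exact (algebraMap ℚ A).injective (by rw [h2, map_zero])

lemma Z_eq_aeval (m : P →₀ ℕ) :
    MvPolynomial.aeval (fun p => L.Z (Finsupp.single p 1)) (MvPolynomial.monomial m (1 : ℚ)) =
      L.Z m := by
  rw [MvPolynomial.aeval_monomial, map_one, one_mul]
  induction m using Finsupp.induction_linear with
  | zero => rw [Finsupp.prod_zero_index, L.Z_zero]
  | add f g hf hg =>
    rw [Finsupp.prod_add_index' (fun _ => pow_zero _) (fun _ _ _ => pow_add _ _ _), hf, hg,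
      L.Z_add]
  | single a n =>
    rw [Finsupp.prod_single_index (h := fun i k => L.Z (Finsupp.single i 1) ^ k) (pow_zero _)]
    induction n with
    | zero => rw [pow_zero, Finsupp.single_zero, L.Z_zero]
    | succ n ih => rw [pow_succ, ih, ← L.Z_add, ← Finsupp.single_add]

theorem algebraicIndependent (h : LinearIndependent ℚ L.Z) :
    AlgebraicIndependent ℚ fun p => L.Z (Finsupp.single p 1) := by
  rw [algebraicIndependent_iff]
  intro f hf
  rw [linearIndependent_iff'] at h
  ext m
  rw [MvPolynomial.coeff_zero]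
  by_contra hm
  refine hm (h f.support (fun m => f.coeff m) ?_ m (MvPolynomial.mem_support_iff.2 hm))
  rw [← hf]
  conv_rhs => rw [f.as_sum, map_sum]
  refine Finset.sum_congr rfl fun m _ => ?_
  have : MvPolynomial.monomial m (f.coeff m) = f.coeff m • MvPolynomial.monomial m (1 : ℚ) := by
    rw [MvPolynomial.smul_monomial, smul_eq_mul, mul_one]
  rw [this, map_smul, L.Z_eq_aeval]

theorem injective_of_algebraicIndependent
    (h : AlgebraicIndependent ℚ fun p => L.Z (Finsupp.single p 1)) : Function.Injective L.Z := by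
  intro M N hMN
  rw [← L.Z_eq_aeval, ← L.Z_eq_aeval] at hMN
  have := h hMN
  exact MvPolynomial.monomial_left_injective (one_ne_zero) this

/-- Injectivity from the detection of the orientation and injectivity on amphichiral homology
spheres. -/
theorem injective_of_chiral [IsDomain A]
    (hA : ∀ M, (∀ p, M p = 0 ∨ M (L.rev p) = 0) → L.Z M = L.Z (L.opp M) → M = 0)
    (hB : ∀ M N, L.opp M = M → L.opp N = N → (∀ p, M p = 0 ∨ N p = 0) → L.Z M = L.Z N →
      M = 0 ∧ N = 0) : Function.Injective L.Z := by
  classical
  -- detection of the orientation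
  have hA' : ∀ M, L.Z M = L.Z (L.opp M) → M = L.opp M := by
    intro M hM
    have h1 : M + (L.opp M - M) = L.opp M + (M - L.opp M) := by
      ext p
      simp only [Finsupp.add_apply, Finsupp.tsub_apply]
      omega
    have h2 := L.Z_cancel hM h1
    have h3 : L.opp (M - L.opp M) = L.opp M - M := by
      ext p
      rw [L.opp_apply, Finsupp.tsub_apply, Finsupp.tsub_apply, L.opp_apply, L.opp_apply,
        L.rev_rev]
    have h4 : M - L.opp M = 0 := by
      refine hA _ (fun p => ?_) (by rw [h3, h2])
      rw [Finsupp.tsub_apply, Finsupp.tsub_apply, L.opp_apply, L.opp_apply, L.rev_rev]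
      omega
    have h5 : L.opp M - M = 0 := by
      rw [← h3, h4]
      ext p
      rw [L.opp_apply]
      rfl
    ext p
    have h6 := DFunLike.congr_fun h4 p
    have h7 := DFunLike.congr_fun h5 p
    rw [Finsupp.tsub_apply, Finsupp.zero_apply] at h6 h7
    omega
  intro M N hMN
  -- the sum `M # -N`
  have h0 := hA' (M + L.opp N) (by
    have : L.opp (M + L.opp N) = L.opp M + N := by
      ext p
      rw [L.opp_apply, Finsupp.add_apply, Finsupp.add_apply, L.opp_apply, L.opp_apply, L.rev_rev]
    rw [this, L.Z_add, L.Z_add, L.Z_opp, L.Z_opp, hMN, mul_comm])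
  have hp : ∀ p, M p + N (L.rev p) = M (L.rev p) + N p := by
    intro p
    have := DFunLike.congr_fun h0 p
    rw [L.opp_apply, Finsupp.add_apply, Finsupp.add_apply, L.opp_apply, L.opp_apply,
      L.rev_rev] at this
    exact this
  have h1 : M + (N - M) = N + (M - N) := by
    ext p
    simp only [Finsupp.add_apply, Finsupp.tsub_apply]
    omega
  have h2 := L.Z_cancel hMN h1
  have h3 : L.opp (M - N) = M - N := by
    ext p
    rw [L.opp_apply, Finsupp.tsub_apply, Finsupp.tsub_apply]
    have := hp p
    omega
  have h4 : L.opp (N - M) = N - M := by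
    ext p
    rw [L.opp_apply, Finsupp.tsub_apply, Finsupp.tsub_apply]
    have := hp p
    omega
  obtain ⟨h5, h6⟩ := hB _ _ h3 h4 (fun p => by
    rw [Finsupp.tsub_apply, Finsupp.tsub_apply]
    omega) h2.symm
  ext p
  have h7 := DFunLike.congr_fun h5 p
  have h8 := DFunLike.congr_fun h6 p
  rw [Finsupp.tsub_apply, Finsupp.zero_apply] at h7 h8
  omega

/-- Injectivity from a sublinear bound for the fibres. -/
theorem injective_of_sublinear {c : (P →₀ ℕ) → ℝ} (hc : ∀ M N, c (M + N) ≤ c M + c N)
    {f : ℝ → ℝ} (hf : Monotone f) (hlim : Tendsto (fun x => f x / x) atTop (𝓝 0))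
    (h : ∀ (x : ℝ) (F : Finset (P →₀ ℕ)), (∀ M ∈ F, c M ≤ x) →
      (∀ M ∈ F, ∀ N ∈ F, L.Z M = L.Z N) → (F.card : ℝ) ≤ f x) : Function.Injective L.Z := by
  classical
  intro M N hMN
  by_contra hne
  obtain ⟨p, hp⟩ : ∃ p, M p ≠ N p := by
    by_contra hc
    push Not at hc
    exact hne (Finsupp.ext hc)
  set D : ℝ := |c 0| + |c M| + |c N| + 1 with hD
  have hD0 : 0 < D := by positivity
  -- the bound for the complexity
  have hcm : ∀ i j : ℕ, c (i • M + j • N) ≤ c 0 + i * |c M| + j * |c N| := by
    intro i j
    induction i with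
    | zero =>
      induction j with
      | zero => simp
      | succ j ih =>
        have h1 : (0 • M + (j + 1) • N) = (0 • M + j • N) + N := by
          rw [add_smul, one_smul, add_assoc]
        rw [h1]
        have h2 := hc (0 • M + j • N) N
        have h3 := le_abs_self (c N)
        push_cast at ih ⊢
        linarith
    | succ i ih =>
      have h1 : ((i + 1) • M + j • N) = (i • M + j • N) + M := by
        rw [add_smul, one_smul]
        abel
      rw [h1]
      have h2 := hc (i • M + j • N) M
      have h3 := le_abs_self (c M)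
      push_cast
      linarith
  have hZ : ∀ i j : ℕ, L.Z (i • M + j • N) = L.Z M ^ (i + j) := by
    have h1 : ∀ (K : P →₀ ℕ) (i : ℕ), L.Z (i • K) = L.Z K ^ i := by
      intro K i
      induction i with
      | zero => rw [zero_smul, L.Z_zero, pow_zero]
      | succ i ih => rw [add_smul, one_smul, L.Z_add, ih, pow_succ]
    intro i j
    rw [L.Z_add, h1, h1, ← hMN, pow_add]
  have hcard : ∀ k : ℕ, (k : ℝ) + 1 ≤ f ((k + 1) * D) := by
    intro k
    have hinj : Set.InjOn (fun i : ℕ => i • M + (k - i) • N) (Finset.range (k + 1) : Set ℕ) := by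
      intro i hi j hj hij
      rw [Finset.coe_range, Set.mem_Iio] at hi hj
      have h1 := DFunLike.congr_fun hij p
      simp only [Finsupp.add_apply, Finsupp.smul_apply, smul_eq_mul] at h1
      have h2 : ((i : ℤ) * M p + (k - i) * N p) = j * M p + (k - j) * N p := by
        have h3 : ((k - i : ℕ) : ℤ) = k - i := by omega
        have h4 : ((k - j : ℕ) : ℤ) = k - j := by omega
        rw [← h3, ← h4]
        exact_mod_cast h1
      have h5 : ((i : ℤ) - j) * ((M p : ℤ) - N p) = 0 := by linarith
      rcases mul_eq_zero.1 h5 with h6 | h6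
      · omega
      · exact absurd (by omega) hp
    have h1 := h ((k + 1) * D) ((Finset.range (k + 1)).image fun i : ℕ => i • M + (k - i) • N) ?_ ?_
    · rw [Finset.card_image_of_injOn hinj, Finset.card_range] at h1
      exact_mod_cast h1
    · intro K hK
      obtain ⟨i, hi, rfl⟩ := Finset.mem_image.1 hK
      rw [Finset.mem_range] at hi
      refine (hcm _ _).trans ?_
      have h2 : (i : ℝ) ≤ k + 1 := by exact_mod_cast hi.le
      have h3 : ((k - i : ℕ) : ℝ) ≤ k + 1 := by
        have : k - i ≤ k + 1 := by omega
        exact_mod_cast this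
      have h4 := le_abs_self (c 0)
      have h5 : (i : ℝ) * |c M| ≤ (k + 1) * |c M| :=
        mul_le_mul_of_nonneg_right h2 (abs_nonneg _)
      have h6 : ((k - i : ℕ) : ℝ) * |c N| ≤ (k + 1) * |c N| :=
        mul_le_mul_of_nonneg_right h3 (abs_nonneg _)
      have h7 : |c 0| ≤ (k + 1) * |c 0| := by
        have : (0 : ℝ) ≤ k := Nat.cast_nonneg k
        nlinarith [abs_nonneg (c 0)]
      have h8 : (0 : ℝ) ≤ k + 1 := by positivity
      rw [hD]
      nlinarith
    · intro K hK K' hK'
      obtain ⟨i, hi, rfl⟩ := Finset.mem_image.1 hK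
      obtain ⟨j, hj, rfl⟩ := Finset.mem_image.1 hK'
      rw [Finset.mem_range] at hi hj
      rw [hZ, hZ]
      congr 1
      omega
  have h1 : ∀ᶠ x : ℝ in atTop, f x / x < 1 / D :=
    (tendsto_order.1 hlim).2 _ (by positivity)
  obtain ⟨x₀, hx₀⟩ := eventually_atTop.1 h1
  obtain ⟨k, hk⟩ := exists_nat_ge (x₀ / D)
  have hk0 : (0 : ℝ) < k + 1 := by positivity
  have h2 : x₀ ≤ (k + 1) * D := by
    rw [div_le_iff₀ hD0] at hk
    nlinarith
  have h3 := hx₀ _ h2
  rw [div_lt_iff₀ (mul_pos hk0 hD0)] at h3
  have h4 : 1 / D * ((k + 1) * D) = (k : ℝ) + 1 := by field_simp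
  rw [h4] at h3
  linarith [hcard k]

end LMO

end Pool.Agent.X308.Y
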